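import Mathlib

set_option autoImplicit false

namespace Pool.Agent.Results.MP_071c0d_co.Half

open Finset Function

/-- `col` is the First-Fit colouring of the edge sequence `e`. -/
def FirstFit {W : Type} {t : ℕ} (e : Fin t → Sym2 W) (col : Fin t → ℕ) : Prop :=
  ∀ i, IsLeast {c | 1 ≤ c ∧ ∀ j < i, (∃ w, w ∈ e j ∧ w ∈ e i) → col j ≠ c} (col i)

/-- Builder can present `t` distinct non-loop edges whose First-Fit colouring contains a rainbow
copy of `H`. -/
def Wins {V : Type} (H : SimpleGraph V) (t : ℕ) : Prop :=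
  ∃ (W : Type) (e : Fin t → Sym2 W) (col : Fin t → ℕ), Injective e ∧ (∀ i, ¬ (e i).IsDiag) ∧
    FirstFit e col ∧ ∃ (f : V ↪ W) (g : H.edgeSet → Fin t),
      (∀ x, e (g x) = x.1.map f) ∧ Injective (col ∘ g)

theorem grundy {ι W : Type} [Fintype ι] (e : ι → Sym2 W) (κ : ι → ℕ) (h1 : ∀ i, 1 ≤ κ i)
    (h2 : ∀ i j, (∃ w, w ∈ e j ∧ w ∈ e i) → κ j = κ i → j = i)
    (h3 : ∀ i c, 1 ≤ c → c < κ i → ∃ j, (∃ w, w ∈ e j ∧ w ∈ e i) ∧ κ j = c) :
    ∃ σ : Fin (Fintype.card ι) ≃ ι, FirstFit (e ∘ σ) (κ ∘ σ) := by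
  set φ := (Fintype.equivFin ι).symm
  have hm := Tuple.monotone_sort (κ ∘ φ)
  refine ⟨(Tuple.sort (κ ∘ φ)).trans φ, fun i => ⟨⟨h1 _, fun j hj ha e => ?_⟩, fun c hc => ?_⟩⟩
  · exact hj.ne (Equiv.injective _ (h2 _ _ ha e))
  · by_contra hlt
    obtain ⟨j, ha, e⟩ := h3 _ c hc.1 (not_le.1 hlt)
    obtain ⟨j, rfl⟩ := ((Tuple.sort (κ ∘ φ)).trans φ).surjective j
    refine hc.2 j ?_ ha e
    by_contra hij
    exact hlt (le_of_le_of_eq (hm (not_lt.1 hij)) e)

theorem build {V : Type} (H : SimpleGraph V) {k τ : ℕ} (x : Fin k ≃ H.edgeSet) (a : Fin k → Fin τ)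
    (ha : Monotone a) (v : Fin τ → V) (hv : Injective v) (hx : ∀ i, v (a i) ∈ (x i).1) :
    ∃ t, Wins H t ∧ t ≤ k + ∑ i, (τ - 1 - a i) := by
  classical
  let P := {p : Fin τ × Fin k // a p.2 < p.1 ∧ v p.1 ∉ (x p.2).1}
  let e : Fin k ⊕ P → Sym2 (V ⊕ (Fin τ × Fin k)) :=
    Sum.elim (fun i => (x i).1.map Sum.inl) fun p => s(Sum.inl (v p.1.1), Sum.inr p.1)
  let κ : Fin k ⊕ P → ℕ := Sum.elim (fun i => i + 1) fun p => p.1.2 + 1
  have key : ∀ (r : Fin τ) (y : Fin k), a y ≤ r → ∃ j, Sum.inl (v r) ∈ e j ∧ κ j = y + 1 := by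
    intro r y hy
    by_cases h : v r ∈ (x y).1
    · exact ⟨.inl y, Sym2.mem_map.2 ⟨_, h, rfl⟩, rfl⟩
    · exact ⟨.inr ⟨(r, y), lt_of_le_of_ne hy (fun e : a y = r => h (e ▸ hx y)), h⟩, by simp [e], rfl⟩
  obtain ⟨σ, hσ⟩ := grundy e κ (by rintro (i | p) <;> simp [κ]) (by
      rintro (i | ⟨⟨r, y⟩, p⟩) (j | ⟨⟨r', y'⟩, q⟩) ⟨w, w1, w2⟩ h <;>
        simp only [κ, Sum.elim_inl, Sum.elim_inr, Nat.add_right_cancel_iff, Fin.val_inj] at h <;>
        subst h
      · rfl
      · simp only [e, Sum.elim_inl, Sum.elim_inr, Sym2.mem_map, Sym2.mem_iff] at w1 w2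
        obtain ⟨u, hu, rfl⟩ := w2
        simp only [Sum.inl.injEq, reduceCtorEq, or_false] at w1
        exact absurd (w1 ▸ hu) q.2
      · simp only [e, Sum.elim_inl, Sum.elim_inr, Sym2.mem_map, Sym2.mem_iff] at w1 w2
        obtain ⟨u, hu, rfl⟩ := w1
        simp only [Sum.inl.injEq, reduceCtorEq, or_false] at w2
        exact absurd (w2 ▸ hu) p.2
      · simp only [e, Sum.elim_inr, Sym2.mem_iff] at w1 w2
        have : r' = r := by
          rcases w1 with rfl | rfl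
          · exact hv (by simpa using w2)
          · simpa using w2
        subst this
        rfl) (by
      rintro (i | ⟨⟨r, y⟩, p⟩) c c1 c2 <;> simp only [κ, Sum.elim_inl, Sum.elim_inr] at c2
      · obtain ⟨j, j1, j2⟩ := key (a i) ⟨c - 1, by omega⟩ (ha (by rw [Fin.le_def]; simp; omega))
        exact ⟨j, ⟨_, j1, Sym2.mem_map.2 ⟨_, hx i, rfl⟩⟩, by rw [j2]; simp; omega⟩
      · obtain ⟨j, j1, j2⟩ := key r ⟨c - 1, by omega⟩
          ((ha (by rw [Fin.le_def]; simp; omega)).trans p.1.le)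
        exact ⟨j, ⟨_, j1, by simp [e]⟩, by rw [j2]; simp; omega⟩)
  refine ⟨_, ⟨_, _, _, Injective.comp ?_ σ.injective, fun i => ?_, hσ, Embedding.inl,
    fun y => σ.symm (.inl (x.symm y)), fun y => by simp [e], fun y z h => ?_⟩, ?_⟩
  · rintro (i | p) (j | q) h
    · exact congrArg _ (x.injective (Subtype.ext (Sym2.map.injective Sum.inl_injective h)))
    · have : Sum.inr q.1 ∈ e (.inl i) := h ▸ by simp [e]
      simp [e] at this
    · have : Sum.inr p.1 ∈ e (.inl j) := h ▸ by simp [e]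
      simp [e] at this
    · have : Sum.inr p.1 ∈ e (.inr q) := h ▸ by simp [e]
      exact congrArg _ (Subtype.ext (by simpa [e] using this))
  · simp only [comp]
    rcases σ i with i | p
    · exact fun h => H.not_isDiag_of_mem_edgeSet (x i).2
        ((Sym2.isDiag_map Sum.inl_injective).1 h)
    · simp [e]
  · simpa [κ, Fin.val_inj] using h
  · rw [Fintype.card_sum, Fintype.card_fin, add_le_add_iff_left, Fintype.card_subtype,
      card_eq_sum_card_fiberwise (f := Prod.snd) (t := univ) (fun _ _ => mem_univ _)]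
    refine sum_le_sum fun i _ => ?_
    rw [← Fin.card_Ioi]
    refine card_le_card_of_injOn Prod.fst (fun p hp => ?_) fun p hp q hq h => ?_
    · simp only [coe_filter, mem_filter, mem_univ, true_and, Set.mem_ofPred_eq] at hp
      simpa [← hp.2] using hp.1.1
    · simp only [coe_filter, mem_filter, mem_univ, true_and, Set.mem_ofPred_eq] at hp hq
      exact Prod.ext h (hp.2.trans hq.2.symm)

theorem build' {V : Type} (H : SimpleGraph V) {k τ : ℕ} (x : Fin k ≃ H.edgeSet)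
    (a : Fin k → Fin τ) (v : Fin τ → V) (hv : Injective v) (hx : ∀ i, v (a i) ∈ (x i).1) :
    ∃ t, Wins H t ∧ t ≤ k + ∑ i, (τ - 1 - a i) := by
  obtain ⟨t, h1, h2⟩ := build H ((Tuple.sort a).trans x) _ (Tuple.monotone_sort a) v hv
    fun i => hx _
  exact ⟨t, h1, h2.trans_eq (congrArg _ (Equiv.sum_comp (Tuple.sort a) fun i => τ - 1 - a i))⟩

theorem result {V : Type} [Finite V] (H : SimpleGraph V) :
    ∃ t, Wins H t ∧ 2 * t ≤ (H.vertexCoverNum.toNat + 1) * H.edgeSet.ncard := by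
  obtain ⟨C, h1, h2⟩ := H.vertexCoverNum_exists
  have hτ : H.vertexCoverNum.toNat = Nat.card C := by rw [← h1]; rfl
  rw [hτ, ← Nat.card_coe_set_eq]
  set x := (Finite.equivFin H.edgeSet).symm
  set ρ := Finite.equivFin C
  have : ∀ y : H.edgeSet, ∃ u : C, u.1 ∈ y.1 := by
    rintro ⟨y, hy⟩
    induction y using Sym2.ind with
    | _ u w =>
      rcases h2 hy with h | h
      · exact ⟨⟨u, h⟩, by simp⟩
      · exact ⟨⟨w, h⟩, by simp⟩
  choose c hc using this
  obtain ⟨t, w1, t1⟩ := build' H x (fun i => ρ (c (x i))) (fun r => ρ.symm r)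
    (Subtype.val_injective.comp ρ.symm.injective) fun i => by
      rw [Equiv.symm_apply_apply]; exact hc _
  obtain ⟨s, w2, s1⟩ := build' H x (fun i => (ρ (c (x i))).rev) (fun r => ρ.symm r.rev)
    ((Subtype.val_injective.comp ρ.symm.injective).comp Fin.rev_injective)
    fun i => by rw [Fin.rev_rev, Equiv.symm_apply_apply]; exact hc _
  have : ∑ i, (Nat.card C - 1 - ρ (c (x i))) + ∑ i, (Nat.card C - 1 - (ρ (c (x i))).rev)
      + ∑ _i : Fin (Nat.card H.edgeSet), 1 = ∑ _i : Fin (Nat.card H.edgeSet), Nat.card C := by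
    rw [← sum_add_distrib, ← sum_add_distrib]
    refine sum_congr rfl fun i _ => ?_
    have := (ρ (c (x i))).2
    rw [Fin.val_rev]
    omega
  simp only [sum_const, card_univ, Fintype.card_fin, smul_eq_mul, mul_one] at this
  rcases le_total t s with h | h
  · exact ⟨t, w1, by nlinarith⟩
  · exact ⟨s, w2, by nlinarith⟩

end Pool.Agent.Results.MP_071c0d_co.Half
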